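import Pool.Agent.QSB.StmtsX4
import Pool.Agent.QSB.StmtsB2
import Pool.Agent.Helper18_QSB.Bridge
import Pool.Agent.Helper10_QSX.FIN

set_option autoImplicit false

/-! # Row FN4 of squad QSB (after Helper18_QSB/FNB.lean) -/

namespace Pool.Agent.QSB.H43

open Matrix Finset Pool.Agent.QSX Pool.Agent.QSN Pool.Agent.QSB Pool.Agent.QSB.H18

theorem fn4 (hT : WtxStmt) (hW : WkxStmt) (hA : Al4Stmt) (hE : EmbStmt) (hL : LenStmt) :
    Fn4Stmt := by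
  rintro X Y ⟨hX⟩ hR hS hr
  have key : QE X Y → AlgEmb X Y := fun h =>
    hA X Y (mb_spn hX) (mb_ray hT hX) hR hS hr (hW X Y ⟨hX⟩ h)
  refine ⟨⟨key, fun h => ?_⟩, ⟨fun h => key ?_, fun h => (hE X Y h).1⟩⟩
  · obtain ⟨f, hf⟩ := (hE X Y h).2 ℝ
    exact ⟨ℝ, inferInstance, inferInstance, f, hf⟩
  · obtain ⟨f, hf⟩ := h
    exact ⟨ℝ, inferInstance, inferInstance, _, Pool.Agent.QSX.H10.qie_pair hL hf ℝ⟩

end Pool.Agent.QSB.H43
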